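import Pool.Agent.Helper21.W4.St2

/-!
# Wilf in embedding dimension four: the losses in type 3
-/

set_option autoImplicit false

namespace Pool.Agent.Helper7.W4

open Pool.Agent.Helper21.W4 Finset

/-- the interior points -/
def QQ (B : ℕ) (h1 : ℕ → ℕ → ℕ) : Finset (ℕ × ℕ × ℕ) :=
  (range B ×ˢ range B ×ˢ range B).filter
    (fun x => 1 ≤ x.1 ∧ 1 ≤ x.2.1 ∧ 1 ≤ x.2.2 ∧ x.1 < h1 x.2.1 x.2.2)

theorem mem_QQ {B : ℕ} {h1 h2 h3 : ℕ → ℕ → ℕ} (pp : PP B h1 h2 h3) (p q r : ℕ) :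
    (p, q, r) ∈ QQ B h1 ↔ 1 ≤ p ∧ 1 ≤ q ∧ 1 ≤ r ∧ p < h1 q r := by
  unfold QQ
  rw [mem_filter]
  constructor
  · intro h
    exact h.2
  · intro h
    refine ⟨?_, h⟩
    have hb := pp.bd p q r h.2.2.2
    simp only [mem_product, mem_range]
    omega

theorem card_QQ {B : ℕ} {h1 h2 h3 : ℕ → ℕ → ℕ} (pp : PP B h1 h2 h3) :
    (QQ B h1).card ≤ bk B h3 := by
  have e : bk B h3 =
      ((range B ×ˢ range B).sigma (fun x => range (h3 (x.1 + 1) (x.2 + 1) - 1))).card := by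
    rw [card_sigma, sum_product]
    simp [bk]
  rw [e]
  refine card_le_card_of_injOn
    (fun x : ℕ × ℕ × ℕ => (⟨(x.1 - 1, x.2.1 - 1), x.2.2 - 1⟩ : (_ : ℕ × ℕ) × ℕ)) ?_ ?_
  · rintro ⟨p, q, r⟩ hx
    have hx' := (mem_QQ pp p q r).1 (mem_coe.1 hx)
    obtain ⟨hp, hq, hr, hh⟩ := hx'
    have hb := pp.bd p q r hh
    have h3' := (pp.e13 p q r).1 hh
    have hp1 : p - 1 + 1 = p := by omega
    have hq1 : q - 1 + 1 = q := by omega
    simp only [coe_sigma, Set.mem_sigma_iff, mem_coe, mem_product, mem_range, hp1, hq1]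
    omega
  · rintro ⟨p, q, r⟩ hx ⟨p', q', r'⟩ hx' he
    have hx1 := (mem_QQ pp p q r).1 (mem_coe.1 hx)
    have hx2 := (mem_QQ pp p' q' r').1 (mem_coe.1 hx')
    simp only [Sigma.mk.injEq, Prod.mk.injEq, heq_eq_eq] at he
    simp only [Prod.mk.injEq]
    omega

/-- the maximal elements of the region -/
def MX (B : ℕ) (h : ℕ → ℕ → ℕ) (ck : ℕ) : Finset (ℕ × ℕ) :=
  (range B ×ˢ range B).filter
    (fun x => inR h 1 1 ck x.1 x.2 ∧ ¬ inR h 1 1 ck (x.1 + 1) x.2 ∧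
      ¬ inR h 1 1 ck x.1 (x.2 + 1))

theorem mono1 {B : ℕ} {h : ℕ → ℕ → ℕ} (ha : Ar B h) {p p' : ℕ} (q : ℕ) (hp : p ≤ p') :
    h p' q ≤ h p q := by
  induction p', hp using Nat.le_induction with
  | base => exact le_refl _
  | succ n _ ih => exact (ha.a1 n q).trans ih

theorem mono2 {B : ℕ} {h : ℕ → ℕ → ℕ} (ha : Ar B h) (p : ℕ) {q q' : ℕ} (hq : q ≤ q') :
    h p q' ≤ h p q := by
  induction q', hq using Nat.le_induction with
  | base => exact le_refl _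
  | succ n _ ih => exact (ha.a2 p n).trans ih

theorem down {B : ℕ} {h : ℕ → ℕ → ℕ} (ha : Ar B h) {ck p q p' q' : ℕ}
    (hr : inR h 1 1 ck p q) (hp1 : 1 ≤ p') (hp : p' ≤ p) (hq1 : 1 ≤ q') (hq : q' ≤ q) :
    inR h 1 1 ck p' q' := by
  obtain ⟨_, _, h3, h4, h5⟩ := hr
  refine ⟨hp1, hq1, ?_, ?_, ?_⟩
  · have e1 := mono1 ha q hp
    have e2 := mono2 ha p' hq
    omega
  · have e1 := mono1 ha 0 hp
    omega
  · have e1 := mono2 ha 0 hq
    omega

theorem mem_MX {B : ℕ} {h : ℕ → ℕ → ℕ} {ck : ℕ} {x : ℕ × ℕ} (hx : x ∈ MX B h ck) :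
    inR h 1 1 ck x.1 x.2 ∧ ¬ inR h 1 1 ck (x.1 + 1) x.2 ∧ ¬ inR h 1 1 ck x.1 (x.2 + 1) := by
  unfold MX at hx
  exact (mem_filter.1 hx).2

theorem inj1 {B : ℕ} {h : ℕ → ℕ → ℕ} (ha : Ar B h) {ck : ℕ} {x y : ℕ × ℕ}
    (hx : x ∈ MX B h ck) (hy : y ∈ MX B h ck) (he : x.1 = y.1) : x = y := by
  obtain ⟨x1, x2, x3⟩ := mem_MX hx
  obtain ⟨y1, y2, y3⟩ := mem_MX hy
  have hx1 := x1.1
  have hx2 := x1.2.1
  have hy1 := y1.1
  have hy2 := y1.2.1
  rcases lt_trichotomy x.2 y.2 with hl | hl | hl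
  · exact absurd (down ha y1 hx1 (le_of_eq he) (by omega) hl) x3
  · exact Prod.ext he hl
  · exact absurd (down ha x1 hy1 (le_of_eq he.symm) (by omega) hl) y3

theorem inj2 {B : ℕ} {h : ℕ → ℕ → ℕ} (ha : Ar B h) {ck : ℕ} {x y : ℕ × ℕ}
    (hx : x ∈ MX B h ck) (hy : y ∈ MX B h ck) (he : x.2 = y.2) : x = y := by
  obtain ⟨x1, x2, x3⟩ := mem_MX hx
  obtain ⟨y1, y2, y3⟩ := mem_MX hy
  have hx1 := x1.1
  have hx2 := x1.2.1
  have hy1 := y1.1
  have hy2 := y1.2.1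
  rcases lt_trichotomy x.1 y.1 with hl | hl | hl
  · exact absurd (down ha y1 (by omega) hl hx2 (le_of_eq he)) x2
  · exact Prod.ext hl he
  · exact absurd (down ha x1 (by omega) hl hy2 (le_of_eq he.symm)) y2

theorem lt_MX {B : ℕ} {h : ℕ → ℕ → ℕ} (ha : Ar B h) {ck : ℕ} {x y : ℕ × ℕ}
    (hx : x ∈ MX B h ck) (hy : y ∈ MX B h ck) (he : x.1 < y.1) : y.2 < x.2 := by
  obtain ⟨x1, x2, x3⟩ := mem_MX hx
  obtain ⟨y1, y2, y3⟩ := mem_MX hy
  by_contra hcon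
  exact x2 (down ha y1 (by omega) he x1.2.1 (by omega))

theorem card1 {B : ℕ} {h : ℕ → ℕ → ℕ} (ha : Ar B h) (ck : ℕ) :
    (MX B h ck).card ≤ ((MX B h ck).filter (fun x => 2 ≤ x.1)).card + 1 := by
  have e := card_filter_add_card_filter_not (s := MX B h ck) (fun x => 2 ≤ x.1)
  have : ((MX B h ck).filter (fun x => ¬ 2 ≤ x.1)).card ≤ 1 := by
    rw [card_le_one]
    intro x hx y hy
    rw [mem_filter] at hx hy
    have hx1 := (mem_MX hx.1).1.1
    have hy1 := (mem_MX hy.1).1.1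
    exact inj1 ha hx.1 hy.1 (by omega)
  omega

theorem card2 {B : ℕ} {h : ℕ → ℕ → ℕ} (ha : Ar B h) (ck : ℕ) :
    (MX B h ck).card ≤ ((MX B h ck).filter (fun x => 2 ≤ x.2)).card + 1 := by
  have e := card_filter_add_card_filter_not (s := MX B h ck) (fun x => 2 ≤ x.2)
  have : ((MX B h ck).filter (fun x => ¬ 2 ≤ x.2)).card ≤ 1 := by
    rw [card_le_one]
    intro x hx y hy
    rw [mem_filter] at hx hy
    have hx1 := (mem_MX hx.1).1.2.1
    have hy1 := (mem_MX hy.1).1.2.1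
    exact inj2 ha hx.1 hy.1 (by omega)
  omega

theorem card3 {B : ℕ} {h : ℕ → ℕ → ℕ} (ha : Ar B h) (ck : ℕ) :
    (MX B h ck).card ≤ ((MX B h ck).filter (fun x => 2 ≤ x.1 ∧ 2 ≤ x.2)).card + 2 := by
  have e1 := card1 ha ck
  have e2 := card_filter_add_card_filter_not
    (s := (MX B h ck).filter (fun x => 2 ≤ x.1)) (fun x => 2 ≤ x.2)
  have e3 : (((MX B h ck).filter (fun x => 2 ≤ x.1)).filter (fun x => ¬ 2 ≤ x.2)).card ≤ 1 := by
    rw [card_le_one]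
    intro x hx y hy
    rw [mem_filter, mem_filter] at hx hy
    have hx1 := (mem_MX hx.1.1).1.2.1
    have hy1 := (mem_MX hy.1.1).1.2.1
    exact inj2 ha hx.1.1 hy.1.1 (by omega)
  rw [filter_filter] at e2
  omega

theorem cap_eq {h : ℕ → ℕ → ℕ} {ci cj ck a b : ℕ} (hc : Cap h ci cj ck)
    (hr : inR h ci cj ck a b) : h a b = ck := by
  obtain ⟨h1, h2, h3, h4, h5⟩ := hr
  have := (hc a b h3).1 ⟨h1, h2⟩
  omega

/-- the lower bound for the number of interior points -/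
theorem bk_ge {B : ℕ} {h1 h2 h3 : ℕ → ℕ → ℕ} {h : ℕ} (pp : PP B h1 h2 h3) (ha : Ar B h3)
    (cap : Cap h3 1 1 h) (hh : 2 ≤ h) (h31 : h3 1 1 = h) :
    (h1 1 1 - 2) + (h2 1 1 - 2) + (h - 1) +
      2 * (((MX B h3 h).card - 1) * (h - 2)) + ((MX B h3 h).card - 2) ≤ bk B h3 := by
  set M := MX B h3 h with hM
  set X1 : Finset (ℕ × ℕ × ℕ) := (Ico 2 (h1 1 1)).image (fun i => (i, 1, 1)) with hX1
  set X2 : Finset (ℕ × ℕ × ℕ) := (Ico 2 (h2 1 1)).image (fun i => (1, i, 1)) with hX2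
  set X3 : Finset (ℕ × ℕ × ℕ) := (Ico 1 h).image (fun i => (1, 1, i)) with hX3
  set Y1 : Finset (ℕ × ℕ × ℕ) := (M.filter (fun x => 2 ≤ x.1) ×ˢ Ico 2 h).image
    (fun x => (x.1.1, 1, x.2)) with hY1
  set Y2 : Finset (ℕ × ℕ × ℕ) := (M.filter (fun x => 2 ≤ x.2) ×ˢ Ico 2 h).image
    (fun x => (1, x.1.2, x.2)) with hY2
  set Y3 : Finset (ℕ × ℕ × ℕ) := (M.filter (fun x => 2 ≤ x.1 ∧ 2 ≤ x.2)).image
    (fun x => (x.1, x.2, 1)) with hY3
  have C1 : X1.card = h1 1 1 - 2 := by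
    rw [hX1, card_image_of_injective, Nat.card_Ico]
    intro a b he
    simpa using he
  have C2 : X2.card = h2 1 1 - 2 := by
    rw [hX2, card_image_of_injective, Nat.card_Ico]
    intro a b he
    simpa using he
  have C3 : X3.card = h - 1 := by
    rw [hX3, card_image_of_injective, Nat.card_Ico]
    intro a b he
    simpa using he
  have K1 : (M.card - 1) * (h - 2) ≤ Y1.card := by
    rw [hY1, card_image_of_injOn, card_product, Nat.card_Ico]
    · exact Nat.mul_le_mul_right _ (by have := card1 ha h; rw [← hM] at this; omega)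
    · rintro ⟨x, r⟩ hx ⟨y, r'⟩ hy he
      rw [mem_coe, mem_product, mem_filter] at hx hy
      simp only [Prod.mk.injEq, true_and] at he
      exact Prod.ext (inj1 ha hx.1.1 hy.1.1 he.1) he.2
  have K2 : (M.card - 1) * (h - 2) ≤ Y2.card := by
    rw [hY2, card_image_of_injOn, card_product, Nat.card_Ico]
    · exact Nat.mul_le_mul_right _ (by have := card2 ha h; rw [← hM] at this; omega)
    · rintro ⟨x, r⟩ hx ⟨y, r'⟩ hy he
      rw [mem_coe, mem_product, mem_filter] at hx hy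
      simp only [Prod.mk.injEq, true_and] at he
      exact Prod.ext (inj2 ha hx.1.1 hy.1.1 he.1) he.2
  have K3 : M.card - 2 ≤ Y3.card := by
    rw [hY3, card_image_of_injective]
    · have := card3 ha h
      rw [← hM] at this
      omega
    · intro x y he
      simp only [Prod.mk.injEq, and_true] at he
      exact Prod.ext he.1 he.2
  have r1 : ∀ x ∈ M, h3 x.1 1 = h ∧ h3 1 x.2 = h ∧ h3 x.1 x.2 = h := by
    intro x hx
    have hr := (mem_MX hx).1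
    exact ⟨cap_eq cap (down ha hr hr.1 (le_refl _) (le_refl _) hr.2.1),
      cap_eq cap (down ha hr (le_refl _) hr.1 hr.2.1 (le_refl _)), cap_eq cap hr⟩
  have n1 : ∀ p q r, (p, q, r) ∈ X1 → 2 ≤ p ∧ q = 1 ∧ r = 1 ∧ p < h1 q r := by
    intro p q r hx
    rw [hX1, mem_image] at hx
    obtain ⟨i, hi, he⟩ := hx
    rw [mem_Ico] at hi
    simp only [Prod.mk.injEq] at he
    obtain ⟨rfl, rfl, rfl⟩ := he
    exact ⟨hi.1, rfl, rfl, hi.2⟩
  have n2 : ∀ p q r, (p, q, r) ∈ X2 → 2 ≤ q ∧ p = 1 ∧ r = 1 ∧ p < h1 q r := by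
    intro p q r hx
    rw [hX2, mem_image] at hx
    obtain ⟨i, hi, he⟩ := hx
    rw [mem_Ico] at hi
    simp only [Prod.mk.injEq] at he
    obtain ⟨rfl, rfl, rfl⟩ := he
    exact ⟨hi.1, rfl, rfl, (pp.e12 _ _ _).2 hi.2⟩
  have n3 : ∀ p q r, (p, q, r) ∈ X3 → 1 ≤ r ∧ p = 1 ∧ q = 1 ∧ p < h1 q r := by
    intro p q r hx
    rw [hX3, mem_image] at hx
    obtain ⟨i, hi, he⟩ := hx
    rw [mem_Ico] at hi
    simp only [Prod.mk.injEq] at he
    obtain ⟨rfl, rfl, rfl⟩ := he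
    exact ⟨hi.1, rfl, rfl, (pp.e13 _ _ _).2 (by omega)⟩
  have m1 : ∀ p q r, (p, q, r) ∈ Y1 → 2 ≤ p ∧ q = 1 ∧ 2 ≤ r ∧ p < h1 q r := by
    intro p q r hx
    rw [hY1, mem_image] at hx
    obtain ⟨⟨x, i⟩, hi, he⟩ := hx
    rw [mem_product, mem_filter, mem_Ico] at hi
    simp only [Prod.mk.injEq] at he
    obtain ⟨rfl, rfl, rfl⟩ := he
    have := r1 x hi.1.1
    exact ⟨hi.1.2, rfl, hi.2.1, (pp.e13 _ _ _).2 (by omega)⟩
  have m2 : ∀ p q r, (p, q, r) ∈ Y2 → p = 1 ∧ 2 ≤ q ∧ 2 ≤ r ∧ p < h1 q r := by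
    intro p q r hx
    rw [hY2, mem_image] at hx
    obtain ⟨⟨x, i⟩, hi, he⟩ := hx
    rw [mem_product, mem_filter, mem_Ico] at hi
    simp only [Prod.mk.injEq] at he
    obtain ⟨rfl, rfl, rfl⟩ := he
    have := r1 x hi.1.1
    exact ⟨rfl, hi.1.2, hi.2.1, (pp.e13 _ _ _).2 (by omega)⟩
  have m3 : ∀ p q r, (p, q, r) ∈ Y3 → 2 ≤ p ∧ 2 ≤ q ∧ r = 1 ∧ p < h1 q r := by
    intro p q r hx
    rw [hY3, mem_image] at hx
    obtain ⟨x, hi, he⟩ := hx
    rw [mem_filter] at hi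
    simp only [Prod.mk.injEq] at he
    obtain ⟨rfl, rfl, rfl⟩ := he
    have := r1 x hi.1
    exact ⟨hi.2.1, hi.2.2, rfl, (pp.e13 _ _ _).2 (by omega)⟩
  have D1 : Disjoint X1 X2 := by
    rw [disjoint_left]
    rintro ⟨p, q, r⟩ ha hb
    have := n1 p q r ha
    have := n2 p q r hb
    omega
  have D2 : Disjoint (X1 ∪ X2) X3 := by
    rw [disjoint_left]
    rintro ⟨p, q, r⟩ ha hb
    have := n3 p q r hb
    rcases mem_union.1 ha with ha | ha
    · have := n1 p q r ha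
      omega
    · have := n2 p q r ha
      omega
  have D3 : Disjoint Y1 Y2 := by
    rw [disjoint_left]
    rintro ⟨p, q, r⟩ ha hb
    have := m1 p q r ha
    have := m2 p q r hb
    omega
  have D4 : Disjoint (Y1 ∪ Y2) Y3 := by
    rw [disjoint_left]
    rintro ⟨p, q, r⟩ ha hb
    have := m3 p q r hb
    rcases mem_union.1 ha with ha | ha
    · have := m1 p q r ha
      omega
    · have := m2 p q r ha
      omega
  have D5 : Disjoint ((X1 ∪ X2) ∪ X3) ((Y1 ∪ Y2) ∪ Y3) := by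
    rw [disjoint_left]
    rintro ⟨p, q, r⟩ ha hb
    have ha' : (q = 1 ∧ r = 1) ∨ (p = 1 ∧ r = 1) ∨ (p = 1 ∧ q = 1) := by
      rcases mem_union.1 ha with ha | ha
      · rcases mem_union.1 ha with ha | ha
        · have := n1 p q r ha
          omega
        · have := n2 p q r ha
          omega
      · have := n3 p q r ha
        omega
    rcases mem_union.1 hb with hb | hb
    · rcases mem_union.1 hb with hb | hb
      · have := m1 p q r hb
        omega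
      · have := m2 p q r hb
        omega
    · have := m3 p q r hb
      omega
  have sub : ((X1 ∪ X2) ∪ X3) ∪ ((Y1 ∪ Y2) ∪ Y3) ⊆ QQ B h1 := by
    rintro ⟨p, q, r⟩ ha
    rw [mem_QQ pp]
    rcases mem_union.1 ha with ha | ha
    · rcases mem_union.1 ha with ha | ha
      · rcases mem_union.1 ha with ha | ha
        · have := n1 p q r ha
          omega
        · have := n2 p q r ha
          omega
      · have := n3 p q r ha
        omega
    · rcases mem_union.1 ha with ha | ha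
      · rcases mem_union.1 ha with ha | ha
        · have := m1 p q r ha
          omega
        · have := m2 p q r ha
          omega
      · have := m3 p q r ha
        omega
  have key := (card_le_card sub).trans (card_QQ pp)
  rw [card_union_of_disjoint D5, card_union_of_disjoint D2, card_union_of_disjoint D1,
    card_union_of_disjoint D4, card_union_of_disjoint D3, C1, C2, C3] at key
  omega

theorem loss_one (B : ℕ) (h : ℕ → ℕ → ℕ) (ci cj : ℕ) : loss B h ci cj 1 = 0 := by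
  unfold loss
  rw [if_pos rfl]

theorem loss_MX (B : ℕ) (h3 : ℕ → ℕ → ℕ) {h : ℕ} (hh : 2 ≤ h) :
    loss B h3 1 1 h = h * (MX B h3 h).card := by
  unfold loss
  rw [if_neg (by omega)]
  rfl

/-- two corners of the face 12 -/
theorem two_cor {B : ℕ} {h1 h2 h3 : ℕ → ℕ → ℕ} {h : ℕ} (pp : PP B h1 h2 h3) (ha : Ar B h3)
    {x y : ℕ × ℕ} (hx : x ∈ MX B h3 h) (hy : y ∈ MX B h3 h) (hlt : x.1 < y.1) :
    2 ≤ (cor B (fun p => h2 p 0)).card := by
  obtain ⟨x1, x2, x3⟩ := mem_MX hx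
  obtain ⟨y1, y2, y3⟩ := mem_MX hy
  have hlt2 := lt_MX ha hx hy hlt
  have hx1 := x1.1
  have hy1 := y1.2.1
  have hyp := y1.1
  -- the first corner
  have e1 : x.2 < h2 x.1 0 := (pp.e12 _ _ _).1 ((pp.e13 _ _ _).2 x1.2.2.1)
  have e2 : h3 (x.1 + 1) x.2 = 0 := by
    by_contra hne
    apply x2
    refine ⟨by omega, x1.2.1, by omega, ?_, x1.2.2.2.2⟩
    exact lt_of_lt_of_le y1.2.2.2.1 (mono1 ha 0 hlt)
  have e3 : ¬ x.2 < h2 (x.1 + 1) 0 := by
    intro hc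
    have := (pp.e13 _ _ _).1 ((pp.e12 _ _ _).2 hc)
    omega
  have e4 : y.2 < h2 y.1 0 := (pp.e12 _ _ _).1 ((pp.e13 _ _ _).2 y1.2.2.1)
  have hxB := pp.bd _ _ _ ((pp.e13 _ _ _).2 x1.2.2.1)
  have hyB := pp.bd _ _ _ ((pp.e13 _ _ _).2 y1.2.2.1)
  have c1 : x.1 ∈ cor B (fun p => h2 p 0) := by
    unfold cor
    rw [mem_filter, mem_range]
    refine ⟨by omega, hx1, ?_, ?_⟩
    · show 2 ≤ h2 x.1 0
      omega
    · show h2 (x.1 + 1) 0 < h2 x.1 0
      omega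
  -- the second corner
  obtain ⟨m, hm⟩ : ∃ m, m = Nat.findGreatest (fun p => 2 ≤ h2 p 0) B := ⟨_, rfl⟩
  have hm1 : y.1 ≤ m := by
    rw [hm]
    exact Nat.le_findGreatest (by omega) (by omega)
  have hm2 : 2 ≤ h2 m 0 := by
    rw [hm]
    exact Nat.findGreatest_spec (P := fun p => 2 ≤ h2 p 0) (m := y.1) (n := B) (by omega)
      (by omega)
  have hmB := pp.bd _ _ _ ((pp.e12 m 1 0).2 (by omega))
  have hm3 : ¬ 2 ≤ h2 (m + 1) 0 := by
    rw [hm]
    exact Nat.findGreatest_is_greatest (P := fun p => 2 ≤ h2 p 0)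
      (by omega : Nat.findGreatest (fun p => 2 ≤ h2 p 0) B < _) (by omega)
  have c2 : m ∈ cor B (fun p => h2 p 0) := by
    unfold cor
    rw [mem_filter, mem_range]
    refine ⟨by omega, by omega, ?_, ?_⟩
    · exact hm2
    · show h2 (m + 1) 0 < h2 m 0
      omega
  have : 1 < (cor B (fun p => h2 p 0)).card := by
    rw [one_lt_card]
    exact ⟨x.1, c1, m, c2, by omega⟩
  omega

theorem hLc : StLc := by
  intro hAr hCap _ hMU hSw B h1 h2 h3 h hC hh h11 h31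
  have pp := hC.pp
  have pp0 : PP0 B h1 h2 h3 := ⟨pp.e12, pp.e13, pp.bd⟩
  obtain ⟨a1, a2, a3, _⟩ := hAr B h1 h2 h3 pp0
  obtain ⟨cap3, _, _⟩ := hCap B h1 h2 h3 1 1 h hC
  have key := bk_ge pp a3 cap3 hh h31
  have h21 : 1 < h2 1 1 := (pp.e12 1 1 1).1 (by omega)
  rw [loss_one, loss_one, loss_MX B h3 hh, h31]
  obtain ⟨k, hk⟩ : ∃ k, k = (MX B h3 h).card := ⟨_, rfl⟩
  rw [← hk] at key ⊢
  by_cases hcase : h = 2 ∧ 2 ≤ k
  · obtain ⟨rfl, hk2⟩ := hcase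
    refine ⟨1, le_refl _, ?_, by omega⟩
    intro _
    have h1c : 1 < (MX B h3 2).card := by omega
    rw [one_lt_card] at h1c
    obtain ⟨x, hx, y, hy, hne⟩ := h1c
    -- order the two elements
    obtain ⟨x, y, hx, hy, hlt⟩ : ∃ x y : ℕ × ℕ, x ∈ MX B h3 2 ∧ y ∈ MX B h3 2 ∧ x.1 < y.1 := by
      rcases lt_trichotomy x.1 y.1 with hl | hl | hl
      · exact ⟨x, y, hx, hy, hl⟩
      · exact absurd (inj1 a3 hx hy hl) hne
      · exact ⟨y, x, hy, hx, hl⟩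
    have hcor := two_cor pp a3 hx hy hlt
    have hlt2 := lt_MX a3 hx hy hlt
    obtain ⟨x1, x2, x3⟩ := mem_MX hx
    obtain ⟨y1, y2, y3⟩ := mem_MX hy
    have hx1 := x1.1
    have hy1 := y1.2.1
    have f1 : y.1 < h1 0 2 := (pp.e13 _ _ _).2 y1.2.2.2.1
    have f2 : x.2 < h2 0 2 := (pp.e12 _ _ _).1 ((pp.e13 _ _ _).2 x1.2.2.2.2)
    have e4 : y.2 < h2 y.1 0 := (pp.e12 _ _ _).1 ((pp.e13 _ _ _).2 y1.2.2.1)
    have e5 : x.1 < h1 x.2 0 := (pp.e13 _ _ _).2 x1.2.2.1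
    have f3 : y.1 < h1 1 0 := (pp.e12 _ _ _).2 (by omega)
    have f4 : x.2 < h2 1 0 := (pp.e12 _ _ _).1 (by omega)
    have g1 := hMU B h1 h2 h3 1 1 2 hC h11 (Or.inr (le_refl _))
    have g2 := hMU B h2 h1 (fun p q => h3 q p) 1 1 2 (hSw B h1 h2 h3 1 1 2 hC).1 h21
      (Or.inr (le_refl _))
    have m1 := mono2 a1 0 (show 1 ≤ 2 by omega)
    have m2 := mono2 a2 0 (show 1 ≤ 2 by omega)
    refine ⟨rfl, hcor, by omega, by omega, by omega, by omega⟩
  · refine ⟨0, by omega, fun hc => by omega, ?_⟩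
    by_cases hk1 : k ≤ 1
    · have : h * k ≤ h := by
        calc h * k ≤ h * 1 := Nat.mul_le_mul_left _ hk1
          _ = h := by omega
      omega
    · have hh3 : 3 ≤ h := by
        by_contra hcon
        exact hcase ⟨by omega, by omega⟩
      obtain ⟨a, rfl⟩ : ∃ a, k = a + 2 := ⟨k - 2, by omega⟩
      obtain ⟨b, rfl⟩ : ∃ b, h = b + 3 := ⟨h - 3, by omega⟩
      have e1 : a + 2 - 1 = a + 1 := by omega
      have e2 : b + 3 - 2 = b + 1 := by omega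
      rw [e1, e2] at key
      have e3 : (b + 3) * (a + 2) ≤ b + 3 + 4 * ((a + 1) * (b + 1)) := by
        nlinarith [Nat.zero_le (a * b)]
      omega

end Pool.Agent.Helper7.W4
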